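import Pool.Agent.Helper52_ABA.Lib

/-! # Statements of the library modules (MP_d857f1_al, part B, squad ABL) -/

namespace Pool.Agent.ABA.B

/-- reduced walk: no backtracking -/
def Red {E : Type} (v : List E) : Prop := ∀ l a b c r, v = l ++ a :: b :: c :: r → a ≠ c

/-- sum of the weights of the corners of a walk -/
def ow {E : Type} (θ : E → E → ℝ) : List E → ℝ
  | [] => 0
  | [_] => 0
  | a :: b :: l => θ a b + ow θ (b :: l)

/-- closed version -/
def cw {E : Type} (θ : E → E → ℝ) (v : List E) : ℝ := ow θ (v ++ v.take 1)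

namespace TG

variable {V E : Type} (S : TG V E)

/-- existence of diagrams -/
def SC : Prop := ∀ x w, S.IsP x w x → ∃ n, S.D x w n

/-- area of a closed path -/
noncomputable def ar (w : List E) : ℕ := sInf {n | ∃ x, S.D x w n}

/-- closed path -/
def Cl (w : List E) : Prop := ∃ x, S.IsP x w x

/-- a fan: spokes `e, …, g` into a common vertex, `φ` the path along the circle from `src e` to
`src g` -/
inductive Fan : E → List E → E → Prop
  | nil (e : E) : Fan e [] e
  | cons {e h e' g : E} {φ : List E} : S.Tri e h e' → Fan e' φ g → Fan e (h :: φ) g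

/-- `a` and `b` start at the same vertex and span a triangle -/
def Cor (a b : E) : Prop := ∃ c, S.Tri a b c

/-- the walk `v` (edges starting at a common vertex) has the circle path `φ` -/
inductive Circ : List E → List E → Prop
  | one (a : E) : Circ [a] []
  | cons {a b c : E} {v φ : List E} : S.Tri b a c → Circ (b :: v) φ → Circ (a :: b :: v) (c :: φ)

/-- nonsingular discs: `e` is parallel to `α`, `n` triangles, `X` the walk at `src e` from `e` to the
first letter of `α`, `Y` the walk at `tgt e` from `inv e` to the inverse of the last letter of `α`,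
`J` the walks at the inner vertices of `α` (from the inverse of the incoming letter to the outgoing
letter), `I` the closed walks at the inner vertices -/
inductive NS : E → List E → ℕ → List E → List E → List (List E) → List (List E) → Prop
  | triv (e : E) : NS e [e] 0 [e] [S.inv e] [] []
  | tb {e e' e'' : E} {α' α'' : List E} {n' n'' : ℕ} {X' Y' X'' Y'' : List E}
      {J' I' J'' I'' : List (List E)} : S.Tri e e' e'' → NS e' α' n' X' Y' J' I' →
      NS e'' α'' n'' X'' Y'' J'' I'' →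
      NS e (α' ++ α'') (n' + n'' + 1) (e :: X') (S.inv e :: Y'')
        (J' ++ (Y'.reverse ++ X'') :: J'') (I' ++ I'')
  | ta {e e' e'' : E} {α : List E} {n : ℕ} {X Y v : List E} {J I : List (List E)} :
      S.Tri e e' e'' → NS e' (α ++ [S.inv e'']) n X Y (J ++ [v]) I → α ≠ [] →
      NS e α (n + 1) (e :: X) (S.inv e :: v.reverse) J (Y :: I)

/-- weights -/
structure Wt (θ : E → E → ℝ) : Prop where
  symm : ∀ a b, θ a b = θ b a
  tri : ∀ {e e' e''}, S.Tri e e' e'' → θ e e' + θ (S.inv e) (S.inv e'') + θ (S.inv e') e'' = 3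

/-- pinch-free closed path -/
def PF (w : List E) : Prop :=
  ∀ p₁ p p₂, w = p₁ ++ p ++ p₂ → p ≠ [] → p₁ ++ p₂ ≠ [] → S.Cl p → S.ar w < S.ar p + S.ar (p₁ ++ p₂)

/-- a disc filling the closed path `w`; `W` is the list of the walks at the vertices of `w`:
`W[i]` starts with the inverse of the letter number `i-1` (cyclically) and ends with the letter number
`i`; `I` the closed walks at the inner vertices; `n` triangles -/
def Disc (w : List E) (W I : List (List E)) (n : ℕ) : Prop :=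
  ∃ e α X Y J, w = S.inv e :: α ∧ W = Y.reverse :: X :: J ∧ S.NS e α n X Y J I

end TG

/-! ## the modules -/

open TG

/-- insertion -/
def InsStmt : Prop := ∀ (V E : Type) (S : TG V E) (x y : V) (α β γ : List E) (m n : ℕ),
  S.D x (α ++ β) m → S.IsP x α y → S.D y γ n → S.D x (α ++ γ ++ β) (m + n)

/-- pushing a letter through a triangle (expansion) -/
def AddStmt : Prop := ∀ (V E : Type) (S : TG V E) (x : V) (α β : List E) (e e' e'' : E) (n : ℕ),
  S.D x (α ++ e :: β) n → S.Tri e e' e'' → S.D x (α ++ e' :: e'' :: β) (n + 1)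

/-- rotation -/
def RotStmt : Prop := ∀ (V E : Type) (S : TG V E) (x y : V) (α β : List E) (n : ℕ),
  S.D x (α ++ β) n → S.IsP x α y → S.D y (β ++ α) n

/-- pushing two letters through a triangle (contraction) -/
def ColStmt : Prop := ∀ (V E : Type) (S : TG V E) (x : V) (α β : List E) (e e' e'' : E) (n : ℕ),
  S.D x (α ++ e' :: e'' :: β) n → S.Tri e e' e'' → S.D x (α ++ e :: β) (n + 1)

/-- inverse -/
def RevStmt : Prop := ∀ (V E : Type) (S : TG V E) (x : V) (w : List E) (n : ℕ),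
  S.D x w n → S.D x (S.rv w) n

/-- gluing along an edge -/
def GlueStmt : Prop := ∀ (V E : Type) (S : TG V E) (x : V) (α β : List E) (e : E) (m n : ℕ),
  S.D x (α ++ [e]) m → S.D x (S.inv e :: β) n → S.D x (α ++ β) (m + n)

/-- fans: expansion and contraction -/
def FanStmt : Prop := ∀ (V E : Type) (S : TG V E) (x : V) (α β φ : List E) (e g : E) (n : ℕ),
  S.Fan e φ g →
    (S.D x (α ++ e :: β) n → S.D x (α ++ φ ++ g :: β) (n + φ.length)) ∧
    (S.IsP x α (S.src e) → S.D x (α ++ φ ++ β) n →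
      S.D x (α ++ e :: S.inv g :: β) (n + φ.length))

/-- closing a backtrack -/
def CloseStmt : Prop := ∀ (V E : Type) (S : TG V E) (x : V) (α β : List E) (e : E) (n : ℕ),
  S.D x (α ++ e :: S.inv e :: β) n → ∃ m ≤ n, S.D x (α ++ β) m

/-- areas -/
def AreaStmt : Prop := ∀ (V E : Type) (S : TG V E), S.SC →
  (∀ x w, S.IsP x w x → S.D x w (S.ar w)) ∧
  (∀ x w n, S.D x w n → S.ar w ≤ n) ∧
  (∀ α β, S.Cl (α ++ β) → S.ar (α ++ β) = S.ar (β ++ α)) ∧
  (∀ w, S.Cl w → S.ar (S.rv w) = S.ar w) ∧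
  (∀ α β γ, S.Cl (α ++ γ ++ β) → S.Cl γ → S.ar (α ++ γ ++ β) ≤ S.ar (α ++ β) + S.ar γ) ∧
  (∀ α β e, S.Cl (α ++ e :: S.inv e :: β) → S.ar (α ++ β) ≤ S.ar (α ++ e :: S.inv e :: β)) ∧
  (∀ α β γ, S.Cl (α ++ γ) → S.Cl (S.rv γ ++ β) →
    S.ar (α ++ β) ≤ S.ar (α ++ γ) + S.ar (S.rv γ ++ β)) ∧
  (∀ α β e e' e'', S.Tri e e' e'' → S.Cl (α ++ e :: β) →
    S.ar (α ++ e :: β) ≤ S.ar (α ++ e' :: e'' :: β) + 1 ∧
    S.ar (α ++ e' :: e'' :: β) ≤ S.ar (α ++ e :: β) + 1)

/-- shape of nonsingular discs -/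
def NsBasicStmt : Prop := ∀ (V E : Type) (S : TG V E) (e : E) (α : List E) (n : ℕ)
  (X Y : List E) (J I : List (List E)), S.NS e α n X Y J I →
    α ≠ [] ∧ S.IsP (S.src e) α (S.tgt e) ∧ S.D (S.tgt e) (S.inv e :: α) n ∧
    J.length + 1 = α.length ∧
    (n = 0 → α = [e] ∧ X = [e] ∧ Y = [S.inv e]) ∧ (n ≠ 0 → 2 ≤ X.length ∧ 2 ≤ Y.length) ∧
    (X.head? = some e ∧ X.getLast? = α.head? ∧ X.IsChain S.Cor) ∧
    (Y.head? = some (S.inv e) ∧ Y.getLast? = (α.map S.inv).getLast? ∧ Y.IsChain S.Cor) ∧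
    (∀ v ∈ J, v.IsChain S.Cor) ∧
    (∀ i v, J[i]? = some v → v.head? = (α.map S.inv)[i]? ∧ v.getLast? = α[i + 1]?) ∧
    (∀ v ∈ I, 2 ≤ v.length ∧ (v ++ v.take 1).IsChain S.Cor)

/-- Gauss-Bonnet -/
def GbStmt : Prop := ∀ (V E : Type) (S : TG V E) (θ : E → E → ℝ), S.Wt θ →
  ∀ (e : E) (α : List E) (n : ℕ) (X Y : List E) (J I : List (List E)), S.NS e α n X Y J I →
    (I.map (fun v => 6 - cw θ v)).sum + (J.map (fun v => 3 - ow θ v)).sum +
      (3 - ow θ X) + (3 - ow θ Y) = 6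

/-- minimal pinch-free closed paths bound nonsingular discs -/
def NsxStmt : Prop := ∀ (V E : Type) (S : TG V E), S.SC → ∀ (e : E) (α : List E),
  S.Cl (S.inv e :: α) → S.PF (S.inv e :: α) →
    ∃ X Y J I, S.NS e α (S.ar (S.inv e :: α)) X Y J I

/-- minimal discs are reduced -/
def MirStmt : Prop := ∀ (V E : Type) (S : TG V E), S.SC → ∀ (e : E) (α : List E)
  (X Y : List E) (J I : List (List E)), S.NS e α (S.ar (S.inv e :: α)) X Y J I →
    Red X ∧ Red Y ∧ (∀ v ∈ J, Red v) ∧ (∀ v ∈ I, Red (v ++ v.take 2))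

/-- peeling the triangles at a boundary vertex -/
def PeelStmt : Prop := ∀ (V E : Type) (S : TG V E) (e : E) (α : List E) (n : ℕ)
  (X Y : List E) (J I : List (List E)), S.NS e α n X Y J I →
    (∀ b α₂, α = b :: α₂ → ∃ φ, S.Circ X φ ∧ φ.length ≤ n ∧
      S.D (S.tgt e) (φ ++ α₂) (n - φ.length)) ∧
    (∀ a α₁, α = α₁ ++ [a] → ∃ φ, S.Circ Y φ ∧ φ.length ≤ n ∧
      S.D (S.src e) (α₁ ++ S.rv φ) (n - φ.length)) ∧
    (∀ α₁ a b α₂ v, α = α₁ ++ a :: b :: α₂ → J[α₁.length]? = some v →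
      ∃ φ, S.Circ v φ ∧ φ.length ≤ n ∧
        S.D (S.tgt e) (S.inv e :: α₁ ++ φ ++ α₂) (n - φ.length))

/-- pinches: a closed path is pinch-free, or (after a rotation) it has two disjoint pinch-free
closed subpaths which can be cut off without loss of area -/
def PinchStmt : Prop := ∀ (V E : Type) (S : TG V E), S.SC → ∀ w, S.Cl w → w ≠ [] →
  S.PF w ∨ ∃ k l₁ p l₂ q l₃, w.rotate k = l₁ ++ p ++ l₂ ++ q ++ l₃ ∧ S.Cl p ∧ S.Cl q ∧
    p ≠ [] ∧ q ≠ [] ∧ S.PF p ∧ S.PF q ∧
    S.ar w = S.ar (l₁ ++ l₂ ++ q ++ l₃) + S.ar p ∧ S.ar w = S.ar (l₁ ++ p ++ l₂ ++ l₃) + S.ar q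

end Pool.Agent.ABA.B
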