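import Mathlib

/-! # Triangle graphs and their disc diagrams (MP_d857f1_al, part B)

A graph with vertices `V`, oriented edges `E`, and triangles: `Tri e e' e''` says that `e : x → y` is
parallel to the path `e' : x → z`, `e'' : z → y`.
`D x w n` : the closed path `w` at `x` bounds a (possibly degenerate) diagram with `n` triangles. -/

namespace Pool.Agent.ABA.B

/-- triangle graphs -/
structure TG (V E : Type) where
  src : E → V
  inv : E → E
  Tri : E → E → E → Prop
  δ : E → ℤ
  inv_inv : ∀ e, inv (inv e) = e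
  tri_src : ∀ {e e' e''}, Tri e e' e'' → src e' = src e
  tri_mid : ∀ {e e' e''}, Tri e e' e'' → src e'' = src (inv e')
  tri_tgt : ∀ {e e' e''}, Tri e e' e'' → src (inv e'') = src (inv e)
  tri_swap : ∀ {e e' e''}, Tri e e' e'' → Tri e' e (inv e'')
  tri_rot : ∀ {e e' e''}, Tri e e' e'' → Tri (inv e') e'' (inv e)
  tri_uniq : ∀ {e e' f f'}, Tri e e' f → Tri e e' f' → f = f'
  δ_inv : ∀ e, δ (inv e) = - δ e
  δ_ne : ∀ e, δ e ≠ 0
  δ_tri : ∀ {e e' e''}, Tri e e' e'' → δ e = δ e' + δ e''

attribute [simp] TG.inv_inv TG.δ_inv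

namespace TG

variable {V E : Type} (S : TG V E)

/-- end point of an edge -/
def tgt (e : E) : V := S.src (S.inv e)

@[simp] theorem tgt_inv (e : E) : S.tgt (S.inv e) = S.src e := by rw [tgt, S.inv_inv]
@[simp] theorem src_inv (e : E) : S.src (S.inv e) = S.tgt e := rfl

theorem Tri.src' {e e' e'' : E} {S : TG V E} (h : S.Tri e e' e'') : S.src e' = S.src e := S.tri_src h
theorem Tri.mid' {e e' e'' : E} {S : TG V E} (h : S.Tri e e' e'') : S.src e'' = S.tgt e' :=
  S.tri_mid h
theorem Tri.tgt' {e e' e'' : E} {S : TG V E} (h : S.Tri e e' e'') : S.tgt e'' = S.tgt e :=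
  S.tri_tgt h

/-- `w` is a path from `x` to `y` -/
def IsP : V → List E → V → Prop
  | x, [], y => x = y
  | x, e :: w, y => S.src e = x ∧ IsP (S.tgt e) w y

/-- inverse path -/
def rv (w : List E) : List E := (w.map S.inv).reverse

/-- diagrams with boundary `w` and `n` triangles -/
inductive D : V → List E → ℕ → Prop
  | nil (x : V) : D x [] 0
  | br {e : E} {b a : List E} {m n : ℕ} : D (S.tgt e) b m → D (S.src e) a n →
      D (S.src e) (e :: (b ++ S.inv e :: a)) (m + n)
  | tri {e e' e'' : E} {a : List E} {n : ℕ} : S.Tri e e' e'' →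
      D (S.src e) (e' :: e'' :: a) n → D (S.src e) (e :: a) (n + 1)

variable {S}

/-! ## paths -/

theorem isP_append {x y : V} {w w' : List E} :
    S.IsP x (w ++ w') y ↔ ∃ z, S.IsP x w z ∧ S.IsP z w' y := by
  induction w generalizing x with
  | nil => simp [IsP]
  | cons e w ih =>
    simp only [List.cons_append, IsP, ih]
    constructor
    · rintro ⟨h, z, h1, h2⟩; exact ⟨z, ⟨h, h1⟩, h2⟩
    · rintro ⟨z, ⟨h, h1⟩, h2⟩; exact ⟨h, z, h1, h2⟩

theorem IsP.eq {x y y' : V} {w : List E} (h : S.IsP x w y) (h' : S.IsP x w y') : y = y' := by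
  induction w generalizing x with
  | nil => exact h.symm.trans h'
  | cons e w ih => exact ih h.2 h'.2

theorem IsP.src_eq {x x' y y' : V} {e : E} {w : List E} (h : S.IsP x (e :: w) y)
    (h' : S.IsP x' (e :: w) y') : x = x' := h.1.symm.trans h'.1

@[simp] theorem rv_nil : S.rv [] = [] := rfl
@[simp] theorem rv_cons (e : E) (w : List E) : S.rv (e :: w) = S.rv w ++ [S.inv e] := by simp [rv]
@[simp] theorem rv_append (w w' : List E) : S.rv (w ++ w') = S.rv w' ++ S.rv w := by simp [rv]
@[simp] theorem rv_rv (w : List E) : S.rv (S.rv w) = w := by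
  have h : S.inv ∘ S.inv = id := by funext e; simp
  simp [rv, h]
@[simp] theorem rv_length (w : List E) : (S.rv w).length = w.length := by simp [rv]

theorem IsP.rv {x y : V} {w : List E} (h : S.IsP x w y) : S.IsP y (S.rv w) x := by
  induction w generalizing x with
  | nil => exact h.symm
  | cons e w ih =>
    rw [rv_cons, isP_append]
    exact ⟨_, ih h.2, by simp [IsP, h.1]⟩

/-! ## first properties of diagrams -/

theorem D.isP {x : V} {w : List E} {n : ℕ} (h : S.D x w n) : S.IsP x w x := by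
  induction h with
  | nil x => rfl
  | br h1 h2 ih1 ih2 =>
    refine ⟨rfl, isP_append.2 ⟨_, ih1, ?_⟩⟩
    exact ⟨rfl, by rw [tgt_inv]; exact ih2⟩
  | tri ht h ih =>
    refine ⟨rfl, ?_⟩
    rw [← Tri.tgt' ht]
    exact ih.2.2

theorem D.δ {x : V} {w : List E} {n : ℕ} (h : S.D x w n) : (w.map S.δ).sum = 0 := by
  induction h with
  | nil x => rfl
  | br h1 h2 ih1 ih2 => simp [ih1, ih2]
  | tri ht h ih =>
    simp only [List.map_cons, List.sum_cons] at ih ⊢
    rw [S.δ_tri ht]; linarith

theorem D.not_single {x : V} {e : E} {n : ℕ} (h : S.D x [e] n) : False := by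
  have := h.δ
  simp at this
  exact S.δ_ne e this

theorem D.nil' {x : V} {n : ℕ} (h : S.D x [] n) : n = 0 := by cases h; rfl

/-- the base point is determined by a nonempty word -/
theorem D.src_eq {x : V} {e : E} {w : List E} {n : ℕ} (h : S.D x (e :: w) n) : x = S.src e :=
  h.isP.1.symm

/-- a diagram of a nonempty word comes from one of the last two constructors -/
theorem D.cases' {x : V} {e : E} {w : List E} {n : ℕ} (h : S.D x (e :: w) n) :
    x = S.src e ∧ ((∃ b a m k, w = b ++ S.inv e :: a ∧ n = m + k ∧ S.D (S.tgt e) b m ∧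
      S.D (S.src e) a k) ∨
    (∃ e' e'' m, n = m + 1 ∧ S.Tri e e' e'' ∧ S.D (S.src e) (e' :: e'' :: w) m)) := by
  cases h with
  | br h1 h2 => exact ⟨rfl, Or.inl ⟨_, _, _, _, rfl, rfl, h1, h2⟩⟩
  | tri ht h => exact ⟨rfl, Or.inr ⟨_, _, _, rfl, ht, h⟩⟩

/-- concatenation -/
theorem D.append {x : V} {w w' : List E} {m n : ℕ} (h : S.D x w m) (h' : S.D x w' n) :
    S.D x (w ++ w') (m + n) := by
  induction h with
  | nil x => simpa using h'
  | br h1 h2 ih1 ih2 =>
    have := D.br h1 (ih2 h')
    simpa [add_assoc] using this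
  | tri ht h ih =>
    have := D.tri ht (ih h')
    simpa [add_right_comm] using this

end TG

end Pool.Agent.ABA.B
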